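import Pool.Agent.helper80.EN.Spec2

/-!
# Row et:EUN: the property `E` passes to directed unions
-/

set_option autoImplicit false

namespace Pool.Agent.helper80.EN

open Subgroup

universe u

theorem EUN_icom {G H : Type u} [Group G] [Group H] (f : G →* H) (x y : G) (n : ℕ) :
    f (icom x y n) = icom (f x) (f y) n := by
  induction n with
  | zero => rfl
  | succ n ih => simp [icom, com, ih]

theorem EUN (hCNC : CNC_stmt.{u}) (hTRF : TRF_stmt.{u}) (hHPR : HPR_stmt.{u}) : EUN_stmt.{u} := by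
  classical
  intro G _ S hS hE B a ha
  apply hCNC B a
  intro T
  obtain ⟨M, haM, hTM, hEM⟩ : ∃ M : Subgroup G, (a : G) ∈ M ∧ (∀ g ∈ T, (g : G) ∈ M) ∧ E M := by
    refine ⟨S (insert (a : G) (T.image Subtype.val)), hS _ (by simp), fun g hg => hS _ ?_, hE _⟩
    simp only [Finset.coe_insert, Finset.coe_image]
    exact Set.mem_insert_of_mem _ ⟨g, hg, rfl⟩
  let f : ↥(B.subgroupOf M) →* ↥B :=
    { toFun := fun x => ⟨((x : ↥M) : G), x.2⟩
      map_one' := rfl
      map_mul' := fun _ _ => rfl }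
  have hf : Function.Injective f := by
    intro x y hxy
    apply Subtype.ext
    apply Subtype.ext
    exact congrArg (fun z : ↥B => (z : G)) hxy
  have hlift : ∀ b : ↥B, (b : G) ∈ M → ∃ b' : ↥(B.subgroupOf M), f b' = b := by
    intro b hb
    exact ⟨⟨⟨(b : G), hb⟩, b.2⟩, rfl⟩
  obtain ⟨a', ha'⟩ := hlift a haM
  have hLE : LeftEngel a' := by
    intro g
    obtain ⟨n, hn⟩ := ha (f g)
    refine ⟨n, hf ?_⟩
    rw [EUN_icom, ha', hn, map_one]
  have hmem : a' ∈ HP ↥(B.subgroupOf M) := hEM (B.subgroupOf M) a' hLE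
  have hnorm := (hHPR ↥(B.subgroupOf M)).1
  have hloc := (hHPR ↥(B.subgroupOf M)).2.1
  have hlocB : LocNilp ((HP ↥(B.subgroupOf M)).map f) := (hTRF ↥(B.subgroupOf M)).2.1 ↥B f _ hloc
  apply hlocB
  · refine ⟨T.image (fun g => g⁻¹ * a * g), ?_⟩
    congr 1
    ext x
    simp only [Finset.coe_image, Set.mem_image, Finset.mem_coe, Set.mem_ofPred_eq]
    constructor
    · rintro ⟨g, hg, rfl⟩
      exact ⟨g, hg, rfl⟩
    · rintro ⟨g, hg, rfl⟩
      exact ⟨g, hg, rfl⟩
  · rw [closure_le]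
    rintro x ⟨g, hg, rfl⟩
    obtain ⟨g', hg'⟩ := hlift g (hTM g hg)
    refine ⟨g'⁻¹ * a' * g', ?_, ?_⟩
    · have h1 := hnorm.conj_mem a' hmem g'⁻¹
      rw [inv_inv] at h1
      exact h1
    · rw [map_mul, map_mul, map_inv, ha', hg']

end Pool.Agent.helper80.EN
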