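import Pool.Agent.helper80.EN.Spec3
import Pool.Agent.helper80.EN.TRF
import Pool.Agent.helper14.FA.MaxCond

/-!
Row JFN of the specification EN (MP_202db4_al): Baer, the join of two finitely generated nilpotent
subnormal subgroups is subnormal.
-/

set_option autoImplicit false

universe u

namespace Pool.Agent.helper80.EN

open Subgroup

/-- a finitely generated subgroup of `N`, as a subgroup of `N` -/
theorem JFN_fg {G : Type u} [Group G] {A N : Subgroup G} (h : A ≤ N) (hA : A.FG) :
    (A.subgroupOf N).FG := by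
  obtain ⟨K, hK, _, hmap⟩ := exists_fg_map_eq N.subtype ⊤ A hA (by
    rw [← MonoidHom.range_eq_map, Subgroup.range_subtype]; exact h)
  have : A.subgroupOf N = K := by
    rw [← hmap]
    exact Subgroup.comap_map_eq_self_of_injective N.subtype_injective K
  rw [this]
  exact hK

/-- a nilpotent subgroup of `N`, as a subgroup of `N` -/
theorem JFN_nil {G : Type u} [Group G] {A N : Subgroup G} (h : A ≤ N) (hA : Group.IsNilpotent A) :
    Group.IsNilpotent (A.subgroupOf N) := by
  apply isNilpotent_of_map N.subtype N.subtype_injective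
  rw [Subgroup.map_subgroupOf_eq_of_le h]
  exact hA

/-- a subgroup of a nilpotent group -/
theorem JFN_nil_le {G : Type u} [Group G] {A J : Subgroup G} (h : A ≤ J)
    (hJ : Group.IsNilpotent J) : Group.IsNilpotent A := by
  have hi : Function.Injective (inclusion h) := inclusion_injective h
  have e : A ≃* (inclusion h).range := MonoidHom.ofInjective hi
  have := hJ
  exact Group.nilpotent_of_mulEquiv e.symm

/-- all subgroups of a finitely generated nilpotent subgroup are finitely generated -/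
theorem JFN_fg_le {G : Type u} [Group G] {A J : Subgroup G} (h : A ≤ J)
    (hJ : Pool.Agent.helper14.FA.MaxCond J) : A.FG := by
  have h1 := fg_map J.subtype (hJ (A.subgroupOf J))
  rwa [Subgroup.map_subgroupOf_eq_of_le h] at h1

/-- maximal members of a nonempty family of subgroups of `J` -/
theorem JFN_max {G : Type u} [Group G] {J : Subgroup G} (hJ : Pool.Agent.helper14.FA.MaxCond J)
    (P : Subgroup G → Prop) (A : Subgroup G) (hA : A ≤ J) (hPA : P A) :
    ∃ M : Subgroup G, M ≤ J ∧ P M ∧ ∀ M' : Subgroup G, M ≤ M' → M' ≤ J → P M' → M' ≤ M := by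
  have hwf := hJ.wf
  obtain ⟨m, hm, hmax⟩ := (wellFounded_gt (α := Subgroup J)).has_min
    {B : Subgroup J | P (B.map J.subtype)} ⟨A.subgroupOf J, by
      change P ((A.subgroupOf J).map J.subtype)
      rw [Subgroup.map_subgroupOf_eq_of_le hA]
      exact hPA⟩
  refine ⟨m.map J.subtype, map_subtype_le m, hm, ?_⟩
  intro M' h1 h2 h3
  have h4 : ¬ m < M'.subgroupOf J := hmax (M'.subgroupOf J) (by
    change P ((M'.subgroupOf J).map J.subtype)
    rw [Subgroup.map_subgroupOf_eq_of_le h2]
    exact h3)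
  have h5 : m ≤ M'.subgroupOf J := by
    intro x hx
    exact h1 ⟨x, hx, rfl⟩
  have h6 : M'.subgroupOf J ≤ m := by
    by_contra hcon
    exact h4 (lt_of_le_not_ge h5 hcon)
  intro x hx
  exact ⟨⟨x, h2 hx⟩, h6 hx, rfl⟩

theorem JFN_aux (hSDA : SDA_stmt.{u}) (hJSN : JSN_stmt.{u}) (hSNB : SNB_stmt.{u})
    (hHPR : HPR_stmt.{u}) (hTRF : TRF_stmt.{u}) : ∀ (s : ℕ) (G : Type u) [Group G]
    (H K : Subgroup G), SubnD s G H → K.IsSubnormal → H.FG → K.FG → Group.IsNilpotent H →
    Group.IsNilpotent K → (H ⊔ K).IsSubnormal := by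
  intro s
  induction s with
  | zero =>
    intro G _ H K hH _ _ _ _ _
    have h : H = ⊤ := hH
    rw [h, top_sup_eq]
    exact IsSubnormal.top
  | succ s ih =>
    intro G _ H K hH hK hHf hKf hHn hKn
    have hHs : H.IsSubnormal := hSDA.2.1 (s + 1) G H hH
    obtain ⟨N, hN, hHN, hHN'⟩ := hH
    obtain ⟨J, hJ⟩ : ∃ J : Subgroup G, J = H ⊔ K := ⟨_, rfl⟩
    have hHJ : H ≤ J := by rw [hJ]; exact le_sup_left
    have hKJ : K ≤ J := by rw [hJ]; exact le_sup_right
    have hJf : J.FG := by rw [hJ]; exact hHf.sup hKf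
    have hJHP : J ≤ HP G := by
      rw [hJ]
      exact sup_le (hSNB G H hHs ((hTRF G).2.2.2.2.1 H hHn)) (hSNB G K hK ((hTRF G).2.2.2.2.1 K hKn))
    have hJn : Group.IsNilpotent J := (hHPR G).2.1 J hJf hJHP
    have hJm : Pool.Agent.helper14.FA.MaxCond J :=
      Pool.Agent.helper14.FA.maxCond_of_nilpotent J ((Group.fg_iff_subgroup_fg J).2 hJf)
    -- the conjugates of `H`
    obtain ⟨L, hL⟩ : ∃ L : Subgroup G,
        L = ⨆ j : J, H.map (MulAut.conj (j : G)).toMonoidHom := ⟨_, rfl⟩
    have hconj : ∀ j ∈ J, H.map (MulAut.conj j).toMonoidHom ≤ L := by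
      intro j hj
      rw [hL]
      exact le_iSup (fun j : J => H.map (MulAut.conj (j : G)).toMonoidHom) ⟨j, hj⟩
    have hcJ : ∀ j ∈ J, H.map (MulAut.conj j).toMonoidHom ≤ J := by
      rintro j hj x ⟨h, hh, rfl⟩
      exact J.mul_mem (J.mul_mem hj (hHJ hh)) (J.inv_mem hj)
    have hcN : ∀ j : G, H.map (MulAut.conj j).toMonoidHom ≤ N := by
      rintro j x ⟨h, hh, rfl⟩
      exact hN.conj_mem h (hHN hh) j
    have hLJ : L ≤ J := by
      rw [hL]
      exact iSup_le fun j => hcJ j j.2
    have hLN : L ≤ N := by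
      rw [hL]
      exact iSup_le fun j => hcN j
    have hHL : H ≤ L := by
      refine le_trans ?_ (hconj 1 J.one_mem)
      intro h hh
      exact ⟨h, hh, by simp⟩
    -- `L` is normalised by `J`
    have hnorm : ∀ x ∈ J, ∀ l ∈ L, x * l * x⁻¹ ∈ L := by
      intro x hx l hl
      have h1 : L ≤ L.comap (MulAut.conj x).toMonoidHom := by
        conv_lhs => rw [hL]
        refine iSup_le fun j => ?_
        rintro y ⟨h, hh, rfl⟩
        have h2 := hconj (x * j) (J.mul_mem hx j.2)
        refine h2 ⟨h, hh, ?_⟩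
        simp [mul_assoc]
      exact h1 hl
    -- a maximal subgroup which is subnormal in `N`
    obtain ⟨M, hMJ, ⟨hHM, hML, hMN⟩, hmax⟩ := JFN_max hJm
      (fun M => H ≤ M ∧ M ≤ L ∧ (M.subgroupOf N).IsSubnormal) H hHJ
      ⟨le_rfl, hHL, hSDA.2.1 s N _ hHN'⟩
    have hLM : L ≤ M := by
      conv_lhs => rw [hL]
      refine iSup_le fun j => ?_
      have hjL := hconj j j.2
      have h3 : (((H.map (MulAut.conj (j : G)).toMonoidHom).subgroupOf N) ⊔
          (M.subgroupOf N)).IsSubnormal := by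
        refine ih N _ _ (hSDA.2.2.2 s G N H j hN hHN hHN') hMN ?_ ?_ ?_ ?_
        · exact JFN_fg (hcN j) (fg_map _ hHf)
        · exact JFN_fg (hML.trans hLN) (JFN_fg_le hMJ hJm)
        · exact JFN_nil (hcN j) (isNilpotent_map _ hHn)
        · exact JFN_nil (hML.trans hLN) (JFN_nil_le hMJ hJn)
      rw [← Subgroup.subgroupOf_sup (hcN j) (hML.trans hLN)] at h3
      have h4 := hmax (H.map (MulAut.conj (j : G)).toMonoidHom ⊔ M) le_sup_right
        (sup_le (hcJ j j.2) hMJ) ⟨hHM.trans le_sup_right, sup_le hjL hML, h3⟩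
      exact le_sup_left.trans h4
    have hML' : M = L := le_antisymm hML hLM
    rw [hML'] at hMN
    have hLs : L.IsSubnormal := IsSubnormal.trans hLN hMN hN.isSubnormal
    have h5 := hJSN G L K hLs hK (fun x hx l hl => hnorm x (hKJ hx) l hl)
    have h6 : H ⊔ K = L ⊔ K := by
      apply le_antisymm
      · exact sup_le_sup_right hHL K
      · refine sup_le ?_ le_sup_right
        rw [← hJ]
        exact hLJ
    rw [h6]
    exact h5

/-- Row JFN. -/
theorem JFN (hSDA : SDA_stmt.{u}) (hJSN : JSN_stmt.{u}) (hSNB : SNB_stmt.{u})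
    (hHPR : HPR_stmt.{u}) (hTRF : TRF_stmt.{u}) : JFN_stmt.{u} := by
  intro G _ H K hH hK hHf hKf hHn hKn
  obtain ⟨s, hs⟩ := hSDA.1 G H hH
  exact JFN_aux hSDA hJSN hSNB hHPR hTRF s G H K hs hK hHf hKf hHn hKn

end Pool.Agent.helper80.EN
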